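import Pool.Agent.helper7.EP.SpecH

/-!
# Module ep:INT4
-/

set_option autoImplicit false

open Finset UpperHalfPlane ModularForm PowerSeries
open scoped MatrixGroups Real ArithmeticFunction.sigma
open Pool.Agent.helper81 (EE)

noncomputable section

namespace Pool.Agent.EP

open Pool.Agent.helper12.PE

/-- Multiplication by `DD` moves the span. -/
theorem INT4_mul (k : ℕ) (hk : 3 ≤ k) (x : (ZMod 2)⟦X⟧)
    (hx : x ∈ Submodule.span (ZMod 2)
      (Set.range fun i : Fin ((k - 3) / 3 + 1) => helper12.PE.DD ^ (i : ℕ))) :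
    helper12.PE.DD * x ∈ Submodule.span (ZMod 2)
      (Set.range fun i : Fin (k / 3 + 1) => helper12.PE.DD ^ (i : ℕ)) := by
  induction hx using Submodule.span_induction with
  | mem x hx =>
    obtain ⟨i, rfl⟩ := hx
    have hi := i.2
    refine Submodule.subset_span ⟨⟨(i : ℕ) + 1, by omega⟩, ?_⟩
    simp only []
    rw [pow_succ, mul_comm]
  | zero => rw [mul_zero]; exact Submodule.zero_mem _
  | add x y _ _ hx hy => rw [mul_add]; exact Submodule.add_mem _ hx hy
  | smul a x _ hx => rw [mul_smul_comm]; exact Submodule.smul_mem _ _ hx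

theorem INT4 : INT4_stmt := by
  intro k
  induction k using Nat.strong_induction_on with
  | _ k ih =>
  intro F φ hφ
  rcases Nat.eq_zero_or_pos k with hk0 | hkpos
  · subst hk0
    let F' : ModularForm 𝒮ℒ 0 := ModularForm.mcast (by simp) F
    obtain ⟨c, hc⟩ := ModularFormClass.levelOne_weight_zero_const F'
    have h1 : (F : ℍ → ℂ) = c • (1 : ℍ → ℂ) := by
      have : (F : ℍ → ℂ) = F' := rfl
      rw [this, hc]; ext; simp
    have h2 : qExpansion 1 (c • (1 : ℍ → ℂ)) = c • (1 : ℂ⟦X⟧) := by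
      have := ModularForm.qExpansion_smul (h := 1) one_pos one_mem_strictPeriods_SL c
        (1 : ModularForm 𝒮ℒ 0)
      rw [ModularForm.qExpansion_one] at this
      exact this
    rw [h1, h2] at hφ
    have h3 : φ = C (coeff 0 φ) := by
      ext n
      rw [coeff_C]
      split_ifs with hn
      · rw [hn]
      · have := congrArg (coeff n) hφ
        rw [coeff_map, map_smul, coeff_one, if_neg hn, smul_zero, eq_intCast] at this
        exact_mod_cast this.symm
    rw [h3, map_C]
    have h4 : (C ((Int.castRingHom (ZMod 2)) (coeff 0 φ)) : (ZMod 2)⟦X⟧) =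
        ((Int.castRingHom (ZMod 2)) (coeff 0 φ)) • helper12.PE.DD ^ 0 := by
      rw [pow_zero, smul_eq_C_mul, mul_one]
    rw [h4]
    exact Submodule.smul_mem _ _ (Submodule.subset_span ⟨0, rfl⟩)
  · set a0 : ℤ := coeff 0 φ with ha0
    let E' : ModularForm 𝒮ℒ ((4 * k : ℕ) : ℤ) :=
      ModularForm.mcast (by push_cast; ring) ((E (k := 4) (by norm_num)).pow k)
    have hE' : qExpansion 1 E' = PowerSeries.map (Int.castRingHom ℂ) (eps ^ k) := by
      have : qExpansion 1 E' = qExpansion 1 ((E (k := 4) (by norm_num)).pow k) := rfl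
      rw [this, ModularForm.qExpansion_pow one_pos one_mem_strictPeriods_SL, qExpansion_E4, map_pow]
    let H : ModularForm 𝒮ℒ ((4 * k : ℕ) : ℤ) := F - (a0 : ℂ) • E'
    set ψ : ℤ⟦X⟧ := φ - C a0 * eps ^ k with hψ
    have hH : qExpansion 1 H = PowerSeries.map (Int.castRingHom ℂ) ψ := by
      have h1 : (H : ℍ → ℂ) = F - ((a0 : ℂ) • E' : ModularForm 𝒮ℒ ((4 * k : ℕ) : ℤ)) := rfl
      rw [h1, ModularForm.qExpansion_sub one_pos one_mem_strictPeriods_SL]
      have h2 : (((a0 : ℂ) • E' : ModularForm 𝒮ℒ ((4 * k : ℕ) : ℤ)) : ℍ → ℂ) =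
        (a0 : ℂ) • (E' : ℍ → ℂ) := rfl
      rw [h2, ModularForm.qExpansion_smul one_pos one_mem_strictPeriods_SL, hφ, hE', hψ, map_sub,
        map_mul, map_C, smul_eq_C_mul]
      simp
    have hψ0 : constantCoeff ψ = 0 := by
      have he : constantCoeff eps = 1 := by
        rw [← coeff_zero_eq_constantCoeff, eps, coeff_mk, if_pos rfl]
      rw [hψ, map_sub, map_mul, map_pow, he, one_pow, mul_one, ← coeff_zero_eq_constantCoeff]
      simp [ha0]
    obtain ⟨ψ', hψ'⟩ := X_dvd_iff.mpr hψ0
    have hcusp : (qExpansion 1 H).coeff 0 = 0 := by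
      rw [hH, coeff_map, coeff_zero_eq_constantCoeff, hψ0, map_zero]
    have hmul := ModularForm.qExpansion_eq_qExpansion_discriminant_mul H hcusp
    set H' := CuspForm.discriminantEquiv (toCuspForm H hcusp) with hH'
    have hU : IsUnit ((pentagonalSeries ℤ) ^ 24) := by
      rw [isUnit_iff_constantCoeff, map_pow, constantCoeff_pentagonalSeries]; simp
    obtain ⟨V, hV⟩ := hU.exists_right_inv
    set χ : ℤ⟦X⟧ := ψ' * V with hχ
    have hψχ : ψ = X * (pentagonalSeries ℤ) ^ 24 * χ := by
      rw [hψ', hχ]; linear_combination (-X * ψ') * hV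
    have hqH' : qExpansion 1 H' = PowerSeries.map (Int.castRingHom ℂ) χ := by
      rw [hH, qExpansion_discriminant, hψχ, map_mul] at hmul
      have hne : PowerSeries.map (Int.castRingHom ℂ) (X * (pentagonalSeries ℤ) ^ 24) ≠ 0 := by
        intro h0
        have h1 : (X * (pentagonalSeries ℤ) ^ 24 : ℤ⟦X⟧) = 0 := map_injective (by rw [h0, map_zero])
        rcases mul_eq_zero.mp h1 with h2 | h2
        · exact X_ne_zero h2
        · exact hU.ne_zero h2
      exact (mul_left_cancel₀ hne hmul).symm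
    have hφψ : φ = C a0 * eps ^ k + X * (pentagonalSeries ℤ) ^ 24 * χ := by
      rw [← hψχ, hψ]; ring
    rw [hφψ, map_add, map_mul, map_mul, map_disc, map_pow, map_eps, one_pow, mul_one, map_C]
    have hC : (C ((Int.castRingHom (ZMod 2)) a0) : (ZMod 2)⟦X⟧) =
        ((Int.castRingHom (ZMod 2)) a0) • helper12.PE.DD ^ 0 := by
      rw [pow_zero, smul_eq_C_mul, mul_one]
    rw [hC]
    refine Submodule.add_mem _ (Submodule.smul_mem _ _ (Submodule.subset_span ⟨0, rfl⟩)) ?_
    rcases Nat.lt_or_ge k 3 with hk3 | hk3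
    · have hneg : (((4 * k : ℕ) : ℤ) - 12) < 0 := by omega
      have h0 : (H' : ℍ → ℂ) = 0 := ModularFormClass.levelOne_neg_weight_eq_zero hneg H'
      have hχ0 : χ = 0 := by
        apply helper12.PE.map_injective
        rw [← hqH', h0, UpperHalfPlane.qExpansion_zero, map_zero]
      rw [hχ0, map_zero, mul_zero]
      exact Submodule.zero_mem _
    · have hw : (((4 * k : ℕ) : ℤ) - 12) = ((4 * (k - 3) : ℕ) : ℤ) := by omega
      have hih := ih (k - 3) (by omega) (ModularForm.mcast hw H') χ (by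
        have : qExpansion 1 (ModularForm.mcast hw H') = qExpansion 1 H' := rfl
        rw [this, hqH'])
      exact INT4_mul k hk3 _ hih

end Pool.Agent.EP
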